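import Pool.Agent.U735.SO.Asm

/-!
# The Künneth components of Chow motives (package PART of project SO)
-/

set_option autoImplicit false
set_option linter.unusedSectionVars false
set_option linter.unusedSimpArgs false
set_option backward.isDefEq.respectTransparency false
set_option backward.defeqAttrib.useBackward true

open CategoryTheory Limits MonoidalCategory Pretriangulated Triangulated TensorProduct

namespace Pool.Agent.U194.SO

open Pool.Agent.U735.SO Pool.Agent.Y116.MT Pool.Agent.V1178.MT Pool.Agent.U735.IL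
  Pool.Agent.U735.TC Pool.Agent.U735.TB

universe v u v₀ u₀ w

open Functor.LaxMonoidal

open scoped ZeroObject

section

variable {C : Type u} [Category.{v} C] [Preadditive C] [HasZeroObject C] [HasShift C ℤ]
  [∀ n : ℤ, (shiftFunctor C n).Additive] [Pretriangulated C] [IsTriangulated C]
  [MonoidalCategory C] [SymmetricCategory C] [TensorTriangulated C] [MonoidalPreadditive C]
  [RightRigidCategory C] {E : Type w} [Field E] (R : Realisation C E)

/-- The morphism `f` is zero on the cohomology of degree `n`. -/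
def HZ (n : ℤ) {X Y : C} (f : X ⟶ Y) : Prop := R.H.map (f⟦n⟧') = 0

variable {R}

lemma HZ.right {n : ℤ} {X Y Z : C} {f : X ⟶ Y} (h : HZ R n f) (g : Y ⟶ Z) : HZ R n (f ≫ g) := by
  unfold HZ at *
  rw [Functor.map_comp, Functor.map_comp, h, zero_comp]

lemma HZ.left {n : ℤ} {X Y Z : C} {g : Y ⟶ Z} (h : HZ R n g) (f : X ⟶ Y) : HZ R n (f ≫ g) := by
  unfold HZ at *
  rw [Functor.map_comp, Functor.map_comp, h, comp_zero]

lemma hz_id_iff {n : ℤ} {X : C} : HZ R n (𝟙 X) ↔ IsZero (R.H.obj (X⟦n⟧)) := by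
  unfold HZ
  rw [CategoryTheory.Functor.map_id, CategoryTheory.Functor.map_id, IsZero.iff_id_eq_zero]

lemma HZ.src {n : ℤ} {X Y : C} (h : HZ R n (𝟙 X)) (f : X ⟶ Y) : HZ R n f := by
  rw [← Category.id_comp f]
  exact h.right f

lemma HZ.tgt {n : ℤ} {X Y : C} (h : HZ R n (𝟙 Y)) (f : X ⟶ Y) : HZ R n f := by
  rw [← Category.comp_id f]
  exact h.left f

lemma hz_sub {n : ℤ} {X Y : C} {f g : X ⟶ Y} :
    HZ R n (f - g) ↔ R.H.map (f⟦n⟧') = R.H.map (g⟦n⟧') := by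
  unfold HZ
  rw [Functor.map_sub, Functor.map_sub, sub_eq_zero]

lemma hz_retract {n : ℤ} {X Y : C} (i : Y ⟶ X) (r : X ⟶ Y) (h : i ≫ r = 𝟙 Y)
    (hX : HZ R n (𝟙 X)) : HZ R n (𝟙 Y) := by
  rw [← h]
  exact (hX.tgt i).right r

lemma hz_shift {X Y : C} (f : X ⟶ Y) (m n k : ℤ) (h : m + n = k) :
    HZ R n (f⟦m⟧') ↔ HZ R k f := by
  have h1 : f⟦k⟧' = (shiftFunctorAdd' C m n k h).hom.app X ≫ f⟦m⟧'⟦n⟧' ≫
      (shiftFunctorAdd' C m n k h).inv.app Y := by
    have := (shiftFunctorAdd' C m n k h).hom.naturality f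
    simp only [Functor.comp_map] at this
    rw [← reassoc_of% this]
    simp
  have h2 : f⟦m⟧'⟦n⟧' = (shiftFunctorAdd' C m n k h).inv.app X ≫ f⟦k⟧' ≫
      (shiftFunctorAdd' C m n k h).hom.app Y := by
    rw [h1]
    simp
  constructor
  · intro h3
    unfold HZ at h3 ⊢
    rw [h1, Functor.map_comp, Functor.map_comp, h3, zero_comp, comp_zero]
  · intro h3
    unfold HZ at h3 ⊢
    rw [h2, Functor.map_comp, Functor.map_comp, h3, zero_comp, comp_zero]

lemma hz_id_shift {X : C} (c i : ℤ) (h : HZ R (c + i) (𝟙 X)) : HZ R i (𝟙 (X⟦c⟧)) := by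
  have h3 := (hz_shift (𝟙 X) c i (c + i) rfl).2 h
  rwa [CategoryTheory.Functor.map_id] at h3

lemma hz_whisker {T : C} {d : ℤ} (hT : R.Deg T d) {X Y : C} (f : X ⟶ Y) (n m : ℤ)
    (hm : m + d = n) (h : HZ R m f) : HZ R n (f ▷ T) := by
  have h1 : R.H.map (f⟦n⟧' ▷ T) = 0 := by
    rw [← MonoidalCategory.tensorHom_id]
    refine map_tensor_zero R (f⟦n⟧') (𝟙 T) (fun i => ?_)
    by_cases hi : -i = d
    · left
      exact (hz_shift f n i m (by omega)).2 h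
    · right
      exact (hT (-i) hi).eq_of_src _ _
  have h2 : (f ▷ T)⟦n⟧' = (lShift X T n).inv ≫ (f⟦n⟧') ▷ T ≫ (lShift Y T n).hom := by
    have h3 : (f⟦n⟧') ▷ T ≫ (lShift Y T n).hom = (lShift X T n).hom ≫ (f ▷ T)⟦n⟧' := by
      simp only [lShift, Iso.trans_hom, Functor.mapIso_hom, Category.assoc]
      rw [BraidedCategory.braiding_naturality_left_assoc, reassoc_of% rShift_natural_right T f n,
        ← Functor.map_comp, ← Functor.map_comp, BraidedCategory.braiding_naturality_right]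
    rw [h3, Iso.inv_hom_id_assoc]
  unfold HZ
  rw [h2, Functor.map_comp, Functor.map_comp, h1, zero_comp, comp_zero]

lemma deg_inv {T T' : C} {d : ℤ} (hT : R.Deg T d) (e : T ⊗ T' ≅ 𝟙_ C) : R.Deg T' (-d) := by
  have h0 : ¬ IsZero (R.H.obj (T⟦d⟧)) := by
    intro h
    have h1 : HZ R 0 (𝟙 (T' ⊗ T)) := by
      rw [← id_whiskerRight]
      have h2 : ∀ i : ℤ, IsZero (R.H.obj (T⟦i⟧)) := by
        intro i
        by_cases hi : i = d
        · rw [hi]; exact h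
        · exact hT i hi
      unfold HZ
      have h4 : R.H.map ((𝟙 T' : T' ⟶ T') ⊗ₘ 𝟙 T) = 0 := by
        refine map_tensor_zero R (𝟙 T') (𝟙 T) (fun i => Or.inr ?_)
        exact (h2 _).eq_of_src _ _
      have h5 : IsZero (R.H.obj (T' ⊗ T)) := by
        rw [IsZero.iff_id_eq_zero, ← CategoryTheory.Functor.map_id]
        simpa using h4
      exact (h5.of_iso (R.H.mapIso ((shiftFunctorZero C ℤ).app _))).eq_of_src _ _
    have h2 := hz_id_iff.1 h1
    exact not_isZero_H_unit R (h2.of_iso (R.H.mapIso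
      ((e.symm ≪≫ β_ _ _) ≪≫ (shiftFunctorZero C ℤ).symm.app _)))
  intro j hj
  by_contra h
  have h1 := not_isZero_tensor h0 h
  exact h1 ((deg_unit (R := R) (d + j) (by omega)).of_iso
    (R.H.mapIso ((shiftFunctor C (d + j)).mapIso e)))


lemma hz_whisker' {T T' : C} {d : ℤ} (hT : R.Deg T d) (e : T ⊗ T' ≅ 𝟙_ C) {X Y : C} (f : X ⟶ Y)
    (n m : ℤ) (hm : m + d = n) (h : HZ R n (f ▷ T)) : HZ R m f := by
  have h1 : HZ R m ((f ▷ T) ▷ T') := hz_whisker (deg_inv hT e) (f ▷ T) m n (by omega) h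
  have h2 : f = ((ρ_ X).inv ≫ X ◁ e.inv ≫ (α_ X T T').inv) ≫ ((f ▷ T) ▷ T') ≫
      ((α_ Y T T').hom ≫ Y ◁ e.hom ≫ (ρ_ Y).hom) := by
    have h3 : (α_ X T T').inv ≫ (f ▷ T) ▷ T' ≫ (α_ Y T T').hom = f ▷ (T ⊗ T') :=
      (MonoidalCategory.whiskerRight_tensor f T T').symm
    simp only [Category.assoc]
    rw [reassoc_of% h3, whisker_exchange_assoc, MonoidalCategory.whiskerLeft_inv_hom_assoc]
    simp
  rw [h2]
  exact (h1.right _).left _

lemma twMap_sub (T : C) {X Y : C} (f g : X ⟶ Y) (k : ℕ) :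
    twMap T (f - g) k = twMap T f k - twMap T g k := by
  induction k with
  | zero => rfl
  | succ k ih =>
    simp only [twMap, ih]
    exact (tensorRight T).map_sub

lemma hz_tw {T : C} (hT : R.Deg T (-2)) {X Y : C} (f : X ⟶ Y) (k : ℕ) :
    ∀ n m : ℤ, m = n + 2 * k → HZ R m f → HZ R n (twMap T f k) := by
  induction k with
  | zero =>
    intro n m hm h
    obtain rfl : m = n := by simpa using hm
    exact h
  | succ k ih =>
    intro n m hm h
    push_cast at hm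
    exact hz_whisker hT _ n (n + 2) (by omega) (ih (n + 2) m (by omega) h)

lemma hz_tw' {T T' : C} (hT : R.Deg T (-2)) (e : T ⊗ T' ≅ 𝟙_ C) {X Y : C} (f : X ⟶ Y) (k : ℕ) :
    ∀ n m : ℤ, m = n + 2 * k → HZ R n (twMap T f k) → HZ R m f := by
  induction k with
  | zero =>
    intro n m hm h
    obtain rfl : m = n := by simpa using hm
    exact h
  | succ k ih =>
    intro n m hm h
    push_cast at hm
    exact ih (n + 2) m (by omega) (hz_whisker' hT e _ n (n + 2) (by omega) h)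

lemma chow_twist {Chow : ObjectProperty C} (hC : ChowClosed Chow) {T Q : C} (hT : Chow T)
    (hQ : Chow Q) (k : ℕ) : Chow (twist T Q k) := by
  induction k with
  | zero => exact hQ
  | succ k ih => exact hC.tensor _ _ ih hT

/-- The splitting of an idempotent and its cohomology. -/
lemma split_idem [IsIdempotentComplete C] {Q : C} (p : Q ⟶ Q) (hp : p ≫ p = p) :
    ∃ (A B : C) (i : A ⟶ Q) (r : Q ⟶ A) (j : B ⟶ Q) (s : Q ⟶ B), i ≫ r = 𝟙 A ∧ r ≫ i = p ∧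
      j ≫ s = 𝟙 B ∧ s ≫ j = 𝟙 Q - p ∧
      (∀ n : ℤ, HZ R n (𝟙 Q - p) → VIso R n i ∧ HZ R n (𝟙 B)) ∧
      (∀ n : ℤ, HZ R n p → VIso R n j ∧ HZ R n (𝟙 A)) := by
  obtain ⟨A, i, r, h1, h2⟩ := IsIdempotentComplete.idempotents_split Q p hp
  obtain ⟨B, j, s, h3, h4⟩ := IsIdempotentComplete.idempotents_split Q (𝟙 Q - p)
    (by simp [hp])
  have key : ∀ {U : C} (x : U ⟶ Q) (y : Q ⟶ U) (q : Q ⟶ Q), x ≫ y = 𝟙 U → y ≫ x = q →
      ∀ n : ℤ, HZ R n (𝟙 Q - q) → VIso R n x := by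
    intro U x y q hxy hyx n hq
    rw [hz_sub, ← hyx] at hq
    unfold VIso
    refine ⟨R.H.map (y⟦n⟧'), ?_, ?_⟩
    · rw [← Functor.map_comp, ← Functor.map_comp, hxy, CategoryTheory.Functor.map_id,
        CategoryTheory.Functor.map_id]
    · rw [← Functor.map_comp, ← Functor.map_comp, ← hq, CategoryTheory.Functor.map_id,
        CategoryTheory.Functor.map_id]
  have key2 : ∀ {U : C} (x : U ⟶ Q) (y : Q ⟶ U) (q : Q ⟶ Q), x ≫ y = 𝟙 U → y ≫ x = q →
      ∀ n : ℤ, HZ R n q → HZ R n (𝟙 U) := by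
    intro U x y q hxy hyx n hq
    have h5 : 𝟙 U = x ≫ q ≫ y := by
      rw [← hyx]
      simp [hxy, reassoc_of% hxy]
    rw [h5]
    exact (hq.right _).left _
  refine ⟨A, B, i, r, j, s, h1, h2, h3, h4, fun n hn => ⟨key i r p h1 h2 n hn,
    key2 j s _ h3 h4 n hn⟩, fun n hn => ⟨key j s _ h3 h4 n ?_, key2 i r p h1 h2 n hn⟩⟩
  simpa using hn


/-- A shifted object. -/
noncomputable def tenShift (S Y : C) (n : ℤ) : S⟦n⟧ ⊗ ((Y⟦n⟧)ᘁ : C) ≅ S ⊗ (Yᘁ : C) :=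
  whiskerLeftIso _ ((shiftFunctorCompIsoId C n (-n) (by omega)).symm.app _ ≪≫
    (shiftFunctor C (-n)).mapIso (Pool.Agent.U735.IL.dualShift Y n)) ≪≫ shiftTensorIso S (Yᘁ : C) n

variable {Γ : Type*} [Group Γ] {a : GalAct Γ R} {Chow : ObjectProperty C}

/-- A partial inverse of the Lefschetz operator. -/
lemma partial_inverse (hC : ChowClosed Chow) (hss : ∀ (P : C) (n : ℤ), Chow P → a.Semisimple (P⟦n⟧))
    (hS : S_SPLIT a) {Q Y : C} (hQ : Chow Q) (hY : Chow Y) (c : ℤ)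
    (h1 : ∀ i : ℤ, i < c → HZ R i (𝟙 Q)) (h2 : ∀ i : ℤ, c < i → HZ R i (𝟙 Y)) (L : Q ⟶ Y)
    (hL : VIso R c L) : ∃ ψ : Y ⟶ Q, ψ ≫ L ≫ ψ = ψ ∧ HZ R c (𝟙 Q - L ≫ ψ) ∧
      HZ R c (𝟙 Y - ψ ≫ L) := by
  obtain ⟨φ, hφ1, hφ2⟩ := hS (Q⟦c⟧) (Y⟦c⟧) (L⟦c⟧')
    (fun i hi => hz_id_iff.1 (hz_id_shift c i (h1 _ (by omega))))
    (fun i hi => hz_id_iff.1 (hz_id_shift c i (h2 _ (by omega))))
    ((isIso_iff_bij _).1 hL)
    (GalAct.Semisimple.iso (hss (Q ⊗ (Yᘁ : C)) 0 (hC.tensor _ _ hQ (hC.dual _ hY)))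
      ((shiftFunctorZero C ℤ).app _ ≪≫ (tenShift Q Y c).symm))
  obtain ⟨ψ, rfl⟩ := (shiftFunctor C c).map_surjective φ
  have hb : Function.Bijective (hm R (L⟦c⟧')) := (isIso_iff_bij _).1 hL
  refine ⟨ψ, ?_, ?_, ?_⟩
  · apply (shiftFunctor C c).map_injective
    rw [Functor.map_comp, Functor.map_comp]
    exact hφ2
  · rw [hz_sub]
    apply ModuleCat.hom_ext
    ext x
    change hm R ((𝟙 Q)⟦c⟧') x = hm R ((L ≫ ψ)⟦c⟧') x
    rw [Functor.map_comp, hm_comp, CategoryTheory.Functor.map_id, hm_id]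
    exact (hφ1 x).symm
  · rw [hz_sub]
    apply ModuleCat.hom_ext
    ext y
    change hm R ((𝟙 Y)⟦c⟧') y = hm R ((ψ ≫ L)⟦c⟧') y
    obtain ⟨x, rfl⟩ := hb.2 y
    rw [Functor.map_comp, hm_comp, CategoryTheory.Functor.map_id, hm_id]
    rw [hφ1 x]

/-- The vanishing of a morphism from low degrees to high degrees. -/
lemma faith_zero (hF : S_FAITH R) {X Y : C} (c : ℤ) (h1 : ∀ i : ℤ, c ≤ i → HZ R i (𝟙 X))
    (h2 : ∀ i : ℤ, i < c → HZ R i (𝟙 Y)) (f : X ⟶ Y) : f = 0 := by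
  apply (shiftFunctor C c).map_injective
  rw [Functor.map_zero]
  refine hF _ _ _ (fun i hi => ?_) (fun i hi => ?_) (fun x => ?_)
  · exact hz_id_iff.1 (hz_id_shift c i (h1 _ (by omega)))
  · exact hz_id_iff.1 (hz_id_shift c i (h2 _ (by omega)))
  · have h3 : R.H.map (f⟦c⟧') = 0 := (h1 c le_rfl).src f
    change (R.H.map (f⟦c⟧')).hom x = 0
    rw [h3]
    rfl


lemma vIso_of_zero {n : ℤ} {X Y : C} (hX : HZ R n (𝟙 X)) (hY : HZ R n (𝟙 Y)) (f : X ⟶ Y) :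
    VIso R n f :=
  ⟨0, (hz_id_iff.1 hX).eq_of_src _ _, (hz_id_iff.1 hY).eq_of_src _ _⟩

lemma vIso_id (n : ℤ) (X : C) : VIso R n (𝟙 X) := by
  unfold VIso
  infer_instance

/-- The decomposition of a Chow motive with Lefschetz operators. -/
theorem parts [IsIdempotentComplete C] (hC : ChowClosed Chow)
    (hss : ∀ (P : C) (n : ℤ), Chow P → a.Semisimple (P⟦n⟧)) (hS : S_SPLIT a) (hF : S_FAITH R)
    {T T' : C} (hTC : Chow T) (hT : R.Deg T (-2)) (eT : T ⊗ T' ≅ 𝟙_ C) (m : ℕ) :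
    ∀ (Q : C) (e : ℤ), Chow Q → (∀ i : ℤ, i < e - m → HZ R i (𝟙 Q)) →
      (∀ i : ℤ, e + m < i → HZ R i (𝟙 Q)) →
      (∀ k : ℕ, k ≤ m → ∃ L : Q ⟶ twist T Q k, VIso R (e - k) L) →
      ∀ n : ℤ, ∃ (S : C) (f : S ⟶ Q), Chow S ∧ R.Deg S n ∧ VIso R n f := by
  induction m with
  | zero =>
    intro Q e hQ h1 h2 _ n
    by_cases hn : n = e
    · subst hn
      refine ⟨Q, 𝟙 Q, hQ, fun i hi => ?_, vIso_id _ _⟩
      rcases lt_or_gt_of_ne hi with h | h
      · exact hz_id_iff.1 (h1 i (by simpa using h))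
      · exact hz_id_iff.1 (h2 i (by simpa using h))
    · have hz : IsZero (0 : C) := isZero_zero C
      have h3 : ∀ i : ℤ, HZ R i (𝟙 (0 : C)) := fun i => by
        have : (𝟙 (0 : C)) = 0 := hz.eq_of_src _ _
        unfold HZ
        rw [this, Functor.map_zero, Functor.map_zero]
      refine ⟨0, 0, hC.summand (0 : C) Q 0 0 (hz.eq_of_src _ _) hQ, fun i _ => hz_id_iff.1 (h3 i),
        vIso_of_zero (h3 n) ?_ _⟩
      rcases lt_or_gt_of_ne hn with h | h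
      · exact h1 n (by simpa using h)
      · exact h2 n (by simpa using h)
  | succ m ih =>
    intro Q e hQ hge hle hL n
    obtain ⟨c, hc⟩ : ∃ c : ℤ, c = e - ((m + 1 : ℕ) : ℤ) := ⟨_, rfl⟩
    obtain ⟨b, hb⟩ : ∃ b : ℤ, b = e + ((m + 1 : ℕ) : ℤ) := ⟨_, rfl⟩
    rw [← hc] at hge
    rw [← hb] at hle
    have hb' : b = c + 2 * ((m + 1 : ℕ) : ℤ) := by omega
    obtain ⟨L, hLi⟩ := hL (m + 1) le_rfl
    rw [← hc] at hLi
    obtain ⟨Y, hY⟩ : ∃ Y, Y = twist T Q (m + 1) := ⟨_, rfl⟩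
    have hYC : Chow (twist T Q (m + 1)) := chow_twist hC hTC hQ (m + 1)
    have hYz : ∀ i : ℤ, c < i → HZ R i (𝟙 (twist T Q (m + 1))) := by
      intro i hi
      rw [← twMap_id]
      exact hz_tw hT (𝟙 Q) (m + 1) i _ rfl (hle _ (by omega))
    obtain ⟨ψ, hψ1, hψ2, hψ3⟩ := partial_inverse hC hss hS hQ hYC c hge hYz L hLi
    -- the lowest part
    have hp : (L ≫ ψ) ≫ (L ≫ ψ) = L ≫ ψ := by
      rw [Category.assoc, hψ1]
    have hpz : ∀ i : ℤ, i ≠ c → HZ R i (L ≫ ψ) := by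
      intro i hi
      rcases lt_or_gt_of_ne hi with h | h
      · exact (hge i h).src _
      · exact ((hYz i h).tgt L).right ψ
    obtain ⟨A, Q1, ιA, rA, κ, g, hA1, hA2, hκ1, hκ2, hs1, hs2⟩ := split_idem (R := R) (L ≫ ψ) hp
    have hAC : Chow A := hC.summand _ _ ιA rA hA1 hQ
    have hAz : ∀ i : ℤ, i ≠ c → HZ R i (𝟙 A) := fun i hi => (hs2 i (hpz i hi)).2
    have hQ1C : Chow Q1 := hC.summand _ _ κ g hκ1 hQ
    -- the highest part
    obtain ⟨q, hq⟩ := (twMap_bij eT Q Q (m + 1)).2 (ψ ≫ L)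
    change twMap T q (m + 1) = ψ ≫ L at hq
    have hqq : q ≫ q = q := by
      apply (twMap_bij eT Q Q (m + 1)).1
      change twMap T (q ≫ q) (m + 1) = twMap T q (m + 1)
      rw [twMap_comp, hq, Category.assoc, reassoc_of% hψ1]
    have hψq : ψ ≫ q = 0 := by
      have h1 : twMap T (ψ ≫ q) (m + 1) = 0 := by
        rw [twMap_comp, hq, ← Category.assoc]
        have h2 : twMap T ψ (m + 1) ≫ ψ = 0 := by
          refine faith_zero hF c (fun i hi => ?_) hge _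
          rw [← twMap_id]
          exact hz_tw hT _ (m + 1) i _ rfl (hYz _ (by omega))
        rw [h2, zero_comp]
      apply (twMap_bij eT _ Q (m + 1)).1
      change twMap T (ψ ≫ q) (m + 1) = twMap T 0 (m + 1)
      have h3 : twMap T (0 : twist T Q (m + 1) ⟶ Q) (m + 1) = 0 := by
        rw [← sub_self (0 : twist T Q (m + 1) ⟶ Q), twMap_sub, sub_self]
      rw [h1, h3]
    have hpq : (L ≫ ψ) ≫ q = 0 := by rw [Category.assoc, hψq, comp_zero]
    have hqz : ∀ i : ℤ, i ≠ b → HZ R i q := by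
      intro i hi
      refine hz_tw' hT eT q (m + 1) (i - 2 * ((m + 1 : ℕ) : ℤ)) i (by omega) ?_
      rw [hq]
      have hi' : i - 2 * ((m + 1 : ℕ) : ℤ) ≠ c := by omega
      rcases lt_or_gt_of_ne hi' with h | h
      · exact ((hge _ h).tgt ψ).right L
      · exact (hYz _ h).src _
    have hq1 : HZ R b (𝟙 Q - q) := by
      refine hz_tw' hT eT (𝟙 Q - q) (m + 1) c b hb' ?_
      rw [twMap_sub, twMap_id, hq]
      exact hψ3
    have hπ : (κ ≫ q ≫ g) ≫ (κ ≫ q ≫ g) = κ ≫ q ≫ g := by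
      have h1 : g ≫ κ ≫ q = q := by
        rw [← Category.assoc, hκ2, Preadditive.sub_comp, Category.id_comp, hpq, sub_zero]
      calc (κ ≫ q ≫ g) ≫ (κ ≫ q ≫ g) = κ ≫ q ≫ (g ≫ κ ≫ q) ≫ g := by simp only [Category.assoc]
        _ = κ ≫ (q ≫ q) ≫ g := by rw [h1, Category.assoc]
        _ = _ := by rw [hqq]
    obtain ⟨B, Q2, ιB, rB, κ2, g2, hB1, hB2, hκ3, hκ4, hs3, hs4⟩ :=
      split_idem (R := R) (κ ≫ q ≫ g) hπ
    have hBC : Chow B := hC.summand _ _ ιB rB hB1 hQ1C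
    have hQ2C : Chow Q2 := hC.summand _ _ κ2 g2 hκ3 hQ1C
    have hπz : ∀ i : ℤ, i ≠ b → HZ R i (κ ≫ q ≫ g) := fun i hi => ((hqz i hi).right g).left κ
    have hBz : ∀ i : ℤ, i ≠ b → HZ R i (𝟙 B) := fun i hi => (hs4 i (hπz i hi)).2
    have hcb : c ≠ b := by omega
    have hκV : ∀ i : ℤ, i ≠ c → VIso R i κ := fun i hi => (hs2 i (hpz i hi)).1
    have hQ1z : HZ R c (𝟙 Q1) := (hs1 c hψ2).2
    have hπ1 : HZ R b (𝟙 Q1 - κ ≫ q ≫ g) := by
      have h1 : 𝟙 Q1 - κ ≫ q ≫ g = κ ≫ (𝟙 Q - q) ≫ g := by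
        rw [Preadditive.sub_comp, Preadditive.comp_sub, Category.id_comp, hκ1]
      rw [h1]
      exact (hq1.right g).left κ
    have hBV : VIso R b ιB := (hs3 b hπ1).1
    have hQ2b : HZ R b (𝟙 Q2) := (hs3 b hπ1).2
    have hQ2c : HZ R c (𝟙 Q2) := hz_retract κ2 g2 hκ3 hQ1z
    have hκ2V : ∀ i : ℤ, i ≠ b → VIso R i κ2 := fun i hi => (hs4 i (hπz i hi)).1
    have hQQ2 : ∀ i : ℤ, HZ R i (𝟙 Q) → HZ R i (𝟙 Q2) := fun i hi =>
      hz_retract κ2 g2 hκ3 (hz_retract κ g hκ1 hi)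
    have hKV : ∀ i : ℤ, i ≠ c → i ≠ b → VIso R i (κ2 ≫ κ) := fun i hi hi' =>
      (hκ2V i hi').comp (hκV i hi)
    have hret : (κ2 ≫ κ) ≫ (g ≫ g2) = 𝟙 Q2 := by
      rw [Category.assoc, reassoc_of% hκ1, hκ3]
    have hsec : ∀ i : ℤ, i ≠ c → i ≠ b → HZ R i (𝟙 Q - (g ≫ g2) ≫ (κ2 ≫ κ)) := by
      intro i hi hi'
      have h1 : 𝟙 Q - (g ≫ g2) ≫ (κ2 ≫ κ) = L ≫ ψ + g ≫ (κ ≫ q ≫ g) ≫ κ := by
        have h2 : (g ≫ g2) ≫ (κ2 ≫ κ) = g ≫ (𝟙 Q1 - κ ≫ q ≫ g) ≫ κ := by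
          rw [← hκ4]
          simp only [Category.assoc]
        rw [h2, Preadditive.sub_comp, Preadditive.comp_sub, Category.id_comp, hκ2]
        abel
      rw [h1]
      unfold HZ
      rw [Functor.map_add, Functor.map_add]
      have h3 : HZ R i (g ≫ (κ ≫ q ≫ g) ≫ κ) := ((hπz i hi').right κ).left g
      have h4 := hpz i hi
      unfold HZ at h3 h4
      rw [h3, h4, add_zero]
    by_cases hnc : n = c
    · subst hnc
      exact ⟨A, ιA, hAC, fun i hi => hz_id_iff.1 (hAz i hi), (hs1 _ hψ2).1⟩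
    by_cases hnb : n = b
    · subst hnb
      exact ⟨B, ιB ≫ κ, hBC, fun i hi => hz_id_iff.1 (hBz i hi), hBV.comp (hκV _ hnc)⟩
    obtain ⟨S, f, hSC, hSd, hSf⟩ := ih Q2 e hQ2C (fun i hi => by
        by_cases h : i = c
        · rw [h]; exact hQ2c
        · exact hQQ2 i (hge i (by push_cast at hc; omega)))
      (fun i hi => by
        by_cases h : i = b
        · rw [h]; exact hQ2b
        · exact hQQ2 i (hle i (by push_cast at hb; omega)))
      (fun k hk => by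
        obtain ⟨Lk, hLk⟩ := hL k (by omega)
        have hk' : (k : ℤ) ≤ m := by exact_mod_cast hk
        push_cast at hc hb
        refine ⟨(κ2 ≫ κ) ≫ Lk ≫ twMap T (g ≫ g2) k, ?_⟩
        refine (hKV _ (by omega) (by omega)).comp (hLk.comp ?_)
        -- the twisted projection
        unfold VIso
        refine ⟨R.H.map ((twMap T (κ2 ≫ κ) k)⟦e - k⟧'), ?_, ?_⟩
        · have h1 : HZ R (e - k) (twMap T (𝟙 Q - (g ≫ g2) ≫ (κ2 ≫ κ)) k) :=
            hz_tw hT _ k (e - k) (e + k) (by ring) (hsec _ (by omega) (by omega))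
          rw [twMap_sub, twMap_id, hz_sub, twMap_comp, Functor.map_comp, Functor.map_comp,
            CategoryTheory.Functor.map_id, CategoryTheory.Functor.map_id] at h1
          exact h1.symm
        · rw [← Functor.map_comp, ← Functor.map_comp, ← twMap_comp, hret, twMap_id,
            CategoryTheory.Functor.map_id, CategoryTheory.Functor.map_id]) n
    exact ⟨S, f ≫ κ2 ≫ κ, hSC, hSd, hSf.comp (hKV n hnc hnb)⟩

end

section

variable {C : Type u} [Category.{v} C] [Preadditive C] [HasZeroObject C] [HasShift C ℤ]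
  [∀ n : ℤ, (shiftFunctor C n).Additive] [Pretriangulated C] [IsTriangulated C]
  [MonoidalCategory C] [SymmetricCategory C] [TensorTriangulated C] [MonoidalPreadditive C]
  [RightRigidCategory C] {Γ : Type*} [Group Γ] {Chow : ObjectProperty C} {T : C}

/-- **The Künneth components of Chow motives.** -/
theorem t_PART {Λ : Type*} {E : Λ → Type w} [∀ l, Field (E l)] {R : ∀ l, Realisation C (E l)}
    (l : Λ) (a : GalAct Γ (R l)) (hC : ChowMotives Chow T R) (hT : Chow T)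
    [IsIdempotentComplete C] (hss : ∀ (P : C) (n : ℤ), Chow P → a.Semisimple (P⟦n⟧))
    (hF : S_FAITH (R l)) (hS : S_SPLIT a) (_hD : DualityCompatible (R l)) :
    S_PART Chow (R l) := by
  intro P n hP
  obtain ⟨Q, i, r, e, hir, hQ, hL⟩ := hC.lefschetz.lefschetz P hP
  obtain ⟨T', ⟨eT⟩⟩ := hC.lefschetz.invertible
  obtain ⟨N, hN⟩ := (R l).bounded Q
  obtain ⟨S, f, hSC, hSd, hSf⟩ := parts hC.toChowClosed hss hS hF hT (hC.lefschetz.degree l) eT
    (N + e.natAbs) Q e hQ (fun i hi => hz_id_iff.2 (hN i (by rw [Nat.cast_add] at hi; omega)))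
    (fun i hi => hz_id_iff.2 (hN i (by rw [Nat.cast_add] at hi; omega)))
    (fun k _ => by
      obtain ⟨L, hLi⟩ := hL k
      exact ⟨L, hLi l⟩) n
  refine ⟨S, f ≫ r, hSC, hSd, ?_⟩
  intro x
  obtain ⟨y, hy⟩ := ((isIso_iff_bij _).1 hSf).2 (hm (R l) (i⟦n⟧') x)
  refine ⟨y, ?_⟩
  rw [Functor.map_comp, hm_comp, hy, ← hm_comp, ← Functor.map_comp, hir,
    CategoryTheory.Functor.map_id, hm_id]

end

end Pool.Agent.U194.SO
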